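import Mathlib

namespace Pool.Agent.Results.MP_6a54e9_co.Counterexample

/-- A unit regular `k`-simplex: `k + 1` points at pairwise distance `1`. -/
def IsUnitSimplex {d : ℕ} (k : ℕ) (S : Finset (EuclideanSpace ℝ (Fin d))) : Prop :=
  S.card = k + 1 ∧ ∀ x ∈ S, ∀ y ∈ S, x ≠ y → dist x y = 1

/-- ten times the coordinates: in the coordinate plane `b`, the vector `(5,5)`, `(5,-5)` or
`(7,1)`. -/
def z (b t : ℕ) (i : Fin 12) : ℤ :=
  if i.val = 2 * b then (if t = 2 then 7 else 5)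
  else if i.val = 2 * b + 1 then (if t = 0 then 5 else if t = 1 then -5 else 1) else 0

def z1 (j : Fin 9) : Fin 12 → ℤ := if j.val < 6 then z (j.val / 2) (j.val % 2) else z (j.val - 3) 2
def z2 (j : Fin 9) : Fin 12 → ℤ :=
  if j.val < 6 then z (3 + j.val / 2) (j.val % 2) else z (j.val - 6) 2

def sq (x y : Fin 12 → ℤ) : ℤ := ∑ i, (x i - y i) ^ 2

noncomputable def pt (x : Fin 12 → ℤ) : EuclideanSpace ℝ (Fin 12) :=
  WithLp.toLp 2 fun i => (x i : ℝ) / 10

theorem dist_pt (x y : Fin 12 → ℤ) : dist (pt x) (pt y) = √((sq x y : ℝ) / 100) := by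
  rw [EuclideanSpace.dist_eq]
  congr 1
  simp only [pt, sq, Real.dist_eq, sq_abs]
  push_cast
  rw [Finset.sum_div]
  exact Finset.sum_congr rfl fun i _ => by ring

theorem h11 : ∀ a b : Fin 9, a ≠ b → sq (z1 a) (z1 b) = 100 := by decide +kernel
theorem h22 : ∀ a b : Fin 9, a ≠ b → sq (z2 a) (z2 b) = 100 := by decide +kernel
theorem h12 : ∀ a b : Fin 9, 0 < sq (z1 a) (z2 b) ∧ sq (z1 a) (z2 b) ≤ 100 := by decide +kernel

theorem simplex (w : Fin 9 → Fin 12 → ℤ) (h : ∀ a b, a ≠ b → sq (w a) (w b) = 100) :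
    IsUnitSimplex 8 (Finset.univ.image fun a => pt (w a)) := by
  classical
  have h1 : ∀ a b, a ≠ b → dist (pt (w a)) (pt (w b)) = 1 := fun a b hab => by
    rw [dist_pt, h a b hab]; norm_num
  constructor
  · rw [Finset.card_image_of_injective]
    · simp
    · intro a b hab
      by_contra hne
      have := h1 a b hne
      simp only at hab
      rw [hab, dist_self] at this
      norm_num at this
  · simp only [Finset.mem_image, Finset.mem_univ, true_and]
    rintro _ ⟨a, rfl⟩ _ ⟨b, rfl⟩ hne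
    exact h1 a b fun hab => hne (by rw [hab])

open Classical in
theorem result :
    ¬ ∀ (d k m : ℕ), 2 ≤ d → m ≤ k → k ≤ d →
      ∀ S₁ S₂ : Finset (EuclideanSpace ℝ (Fin d)), IsUnitSimplex k S₁ → IsUnitSimplex m S₂ →
        (∀ x ∈ S₁ ∪ S₂, ∀ y ∈ S₁ ∪ S₂, dist x y ≤ 1) →
        max 0 ((k : ℤ) + 2 * m - 2 * d + 1) ≤ (S₁ ∩ S₂).card := by
  intro H
  have s1 := simplex z1 h11
  have s2 := simplex z2 h22
  have c : ∀ a b, dist (pt (z1 a)) (pt (z2 b)) ≤ 1 ∧ pt (z1 a) ≠ pt (z2 b) := fun a b => by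
    obtain ⟨h0, h1⟩ := h12 a b
    have h0' : (0 : ℝ) < sq (z1 a) (z2 b) := by exact_mod_cast h0
    have h1' : (sq (z1 a) (z2 b) : ℝ) ≤ 100 := by exact_mod_cast h1
    constructor
    · rw [dist_pt, Real.sqrt_le_one]; linarith
    · rw [← dist_pos, dist_pt, Real.sqrt_pos]; linarith
  have key := H 12 8 8 (by norm_num) le_rfl (by norm_num) _ _ s1 s2 (by
    intro x hx y hy
    by_cases hxy : x = y
    · simp [hxy]
    rcases Finset.mem_union.1 hx with hx | hx <;> rcases Finset.mem_union.1 hy with hy | hy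
    · exact (s1.2 x hx y hy hxy).le
    · obtain ⟨a, -, rfl⟩ := Finset.mem_image.1 hx
      obtain ⟨b, -, rfl⟩ := Finset.mem_image.1 hy
      exact (c a b).1
    · obtain ⟨a, -, rfl⟩ := Finset.mem_image.1 hx
      obtain ⟨b, -, rfl⟩ := Finset.mem_image.1 hy
      rw [dist_comm]; exact (c b a).1
    · exact (s2.2 x hx y hy hxy).le)
  rw [Finset.disjoint_iff_inter_eq_empty.1] at key
  · norm_num at key
  · rw [Finset.disjoint_left]
    intro x hx hy
    obtain ⟨a, -, rfl⟩ := Finset.mem_image.1 hx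
    obtain ⟨b, -, hb⟩ := Finset.mem_image.1 hy
    exact (c a b).2 hb.symm

end Pool.Agent.Results.MP_6a54e9_co.Counterexample
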